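import Pool.Agent.Helper35.PW.D

/-!
More definitions for MP_124889_co: centres, extra toggles, pendant half-edges.
-/

open MvPolynomial

namespace PoolPW

/-- delete a vertex (it stays as an isolated vertex) -/
def delV {V : Type*} (M : SimpleGraph V) (r : V) : SimpleGraph V where
  Adj u v := M.Adj u v ∧ u ≠ r ∧ v ≠ r
  symm := ⟨fun _ _ h => ⟨h.1.symm, h.2.2, h.2.1⟩⟩
  loopless := ⟨fun _ h => M.loopless.irrefl _ h.1⟩

/-- delete two vertices (they stay as isolated vertices) -/
def delVV {V : Type*} (M : SimpleGraph V) (b r : V) : SimpleGraph V := delV (delV M b) r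

open Classical in
/-- the degree -/
noncomputable def dg {V : Type*} [Fintype V] (M : SimpleGraph V) (v : V) : ℕ :=
  (Finset.univ.filter (fun x => M.Adj v x)).card

open Classical in
/-- incidence of an extra toggle: `(x, s)` is an edge, `(x, x)` a pendant half-edge -/
noncomputable def inc {V : Type*} (e : V × V) (v : V) : ℝ := if v = e.1 ∨ v = e.2 then 1 else 0

open Classical in
/-- the sign of the class -/
noncomputable def sg {V : Type*} (T : V → ZMod 2) (v : V) : ℝ := if T v = 0 then 1 else -1

/-- the signed incidence vector of an extra toggle -/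
noncomputable def exB {V : Type*} (T : V → ZMod 2) (e : V × V) (v : V) : ℝ := sg T v * inc e v

/-- Proper labelling of the edges of `M` from `{a, z, c}` and of the `β v` pendant half-edges at
each vertex `v` from `{a, c}` (`i v` of them get `c`). -/
def Good {V : Type*} [Fintype V] (M : SimpleGraph V) (β : V → ℕ) (a z c : ℝ) : Prop :=
  ∃ (w : V → V → ℝ) (i : V → ℕ), (∀ u v, w u v = w v u) ∧
    (∀ u v, w u v = a ∨ w u v = z ∨ w u v = c) ∧ (∀ v, i v ≤ β v) ∧
    ∀ u v, M.Adj u v →
      val M (fun v => a * β v + (c - a) * i v) w u ≠ val M (fun v => a * β v + (c - a) * i v) w v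

end PoolPW
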