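import Pool.Agent.Helper60.PW.Defs2

/-!
Module E7, part a: components of `delVV M b r` and counting.
-/

open Finset

namespace PoolPW

namespace E7

set_option linter.unusedSectionVars false

open Classical

section

variable {V : Type*} [Fintype V] (M : SimpleGraph V) (b r : V)

/-- the component of `v` in `M - b - r` -/
noncomputable def cm (v : V) : (delVV M b r).ConnectedComponent :=
  (delVV M b r).connectedComponentMk v

/-- vertices other than `b`, `r` -/
noncomputable def oth : Finset V := univ.filter (fun v => v ≠ b ∧ v ≠ r)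

/-- the proper components -/
noncomputable def PC : Finset (delVV M b r).ConnectedComponent :=
  (oth b r).image (cm M b r)

theorem cm_eq {u v : V} : cm M b r u = cm M b r v ↔ (delVV M b r).Reachable u v := by
  unfold cm
  exact SimpleGraph.ConnectedComponent.eq

theorem adjVV {u v : V} : (delVV M b r).Adj u v ↔ M.Adj u v ∧ u ≠ b ∧ u ≠ r ∧ v ≠ b ∧ v ≠ r := by
  unfold delVV delV
  simp only
  tauto

theorem mem_oth {v : V} : v ∈ oth b r ↔ v ≠ b ∧ v ≠ r := by
  unfold oth; simp

theorem iso_b {v : V} (h : (delVV M b r).Reachable b v) : v = b := by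
  obtain ⟨p⟩ := h
  cases p with
  | nil => rfl
  | cons h _ => exact absurd rfl ((adjVV M b r).mp h).2.1

theorem iso_r {v : V} (h : (delVV M b r).Reachable r v) : v = r := by
  obtain ⟨p⟩ := h
  cases p with
  | nil => rfl
  | cons h _ => exact absurd rfl ((adjVV M b r).mp h).2.2.1

theorem cm_mem {v : V} (h1 : v ≠ b) (h2 : v ≠ r) : cm M b r v ∈ PC M b r :=
  mem_image_of_mem _ ((mem_oth b r).mpr ⟨h1, h2⟩)

theorem of_cm_mem {v : V} (h : cm M b r v ∈ PC M b r) : v ≠ b ∧ v ≠ r := by
  obtain ⟨x, hx, hxv⟩ := mem_image.mp h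
  rw [cm_eq] at hxv
  rw [mem_oth] at hx
  constructor
  · rintro rfl
    exact hx.1 (iso_b M v r hxv.symm)
  · rintro rfl
    exact hx.2 (iso_r M b v hxv.symm)

/-- sums over the other vertices, component by component -/
theorem sum_oth {A : Type*} [AddCommMonoid A] (F : V → A) :
    ∑ v ∈ oth b r, F v = ∑ C ∈ PC M b r, ∑ v ∈ univ.filter (fun v => cm M b r v = C), F v := by
  rw [← sum_fiberwise_of_maps_to (g := cm M b r) (t := PC M b r)
    (fun v hv => mem_image_of_mem _ hv)]
  apply sum_congr rfl
  intro C hC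
  apply sum_congr _ (fun _ _ => rfl)
  ext v
  simp only [mem_filter, mem_univ, true_and]
  constructor
  · exact fun h => h.2
  · intro h
    refine ⟨?_, h⟩
    rw [mem_oth]
    apply of_cm_mem M b r
    rw [h]; exact hC

theorem card_oth' (Q : V → Prop) [DecidablePred Q] (hQ : ∀ v, Q v → v ≠ b ∧ v ≠ r) :
    (univ.filter Q).card =
      ∑ C ∈ PC M b r, (univ.filter (fun v => cm M b r v = C ∧ Q v)).card := by
  rw [card_eq_sum_card_fiberwise (f := cm M b r) (t := PC M b r)]
  · apply sum_congr rfl
    intro C _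
    congr 1
    ext v
    simp only [mem_filter, mem_univ, true_and]
    tauto
  · intro v hv
    simp only [coe_filter, mem_univ, true_and] at hv
    have := hQ v hv
    exact cm_mem M b r this.1 this.2

/-- choosing subsets in the components -/
theorem choose_sub (Q : V → Prop) [DecidablePred Q]
    (k : (delVV M b r).ConnectedComponent → ℕ)
    (hk : ∀ C ∈ PC M b r, k C ≤ (univ.filter (fun v => cm M b r v = C ∧ Q v)).card) :
    ∃ B : Finset V, (∀ v ∈ B, Q v) ∧ B.card = ∑ C ∈ PC M b r, k C ∧
      ∀ C ∈ PC M b r, (B.filter (fun v => cm M b r v = C)).card = k C := by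
  have h1 : ∀ C, ∃ B : Finset V, B ⊆ univ.filter (fun v => cm M b r v = C ∧ Q v) ∧
      (C ∈ PC M b r → B.card = k C) := by
    intro C
    by_cases hC : C ∈ PC M b r
    · obtain ⟨B, hB, hB2⟩ := exists_subset_card_eq (hk C hC)
      exact ⟨B, hB, fun _ => hB2⟩
    · exact ⟨∅, empty_subset _, fun h => absurd h hC⟩
  choose B hB hB2 using h1
  have hf : ∀ C ∈ PC M b r,
      ((PC M b r).biUnion B).filter (fun v => cm M b r v = C) = B C := by
    intro C hC
    ext v
    simp only [mem_filter, mem_biUnion]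
    constructor
    · rintro ⟨⟨D, hD, hvD⟩, hvC⟩
      have := hB D hvD
      simp only [mem_filter, mem_univ, true_and] at this
      rw [← this.1.symm.trans hvC]
      exact hvD
    · intro hv
      have := hB C hv
      simp only [mem_filter, mem_univ, true_and] at this
      exact ⟨⟨C, hC, hv⟩, this.1⟩
  refine ⟨(PC M b r).biUnion B, ?_, ?_, ?_⟩
  · intro v hv
    obtain ⟨C, _, hv⟩ := mem_biUnion.mp hv
    have := hB C hv
    simp only [mem_filter, mem_univ, true_and] at this
    exact this.2
  · rw [card_biUnion]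
    · exact sum_congr rfl (fun C hC => hB2 C hC)
    · intro C _ D _ hCD
      rw [Function.onFun, disjoint_left]
      intro v hv hv'
      have e1 := hB C hv
      have e2 := hB D hv'
      simp only [mem_filter, mem_univ, true_and] at e1 e2
      exact hCD (e1.1.symm.trans e2.1)
  · intro C hC
    rw [hf C hC, hB2 C hC]

/-- choosing a smaller function with prescribed sum -/
theorem exists_le_sum {ι : Type*} (s : Finset ι) (k : ι → ℕ) (K : ℕ) (h : K ≤ ∑ i ∈ s, k i) :
    ∃ k' : ι → ℕ, (∀ i, k' i ≤ k i) ∧ ∑ i ∈ s, k' i = K := by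
  induction s using Finset.induction_on generalizing K with
  | empty =>
    refine ⟨fun _ => 0, fun _ => Nat.zero_le _, ?_⟩
    simp at h ⊢
    exact h.symm
  | insert x s hx ih =>
    rw [sum_insert hx] at h
    obtain ⟨k', h1, h2⟩ := ih (K - min K (k x)) (by omega)
    refine ⟨fun i => if i = x then min K (k x) else k' i, ?_, ?_⟩
    · intro i
      dsimp only
      split_ifs with hi
      · subst hi; exact min_le_right _ _
      · exact h1 i
    · rw [sum_insert hx, if_pos rfl]
      have : ∑ i ∈ s, (if i = x then min K (k x) else k' i) = ∑ i ∈ s, k' i := by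
        apply sum_congr rfl
        intro i hi
        have hne : i ≠ x := by
          rintro rfl
          exact hx hi
        rw [if_neg hne]
      rw [this, h2]
      omega

variable (T0 f : V → ZMod 2)

/-- number of `b`-neighbours in the component `C` with `T0 = j` -/
noncomputable def nb (C : (delVV M b r).ConnectedComponent) (j : ZMod 2) : ℕ :=
  (univ.filter (fun v => cm M b r v = C ∧ M.Adj b v ∧ v ≠ r ∧ T0 v = j)).card

/-- number of `r`-neighbours in the component `C` with `T0 = j` -/
noncomputable def nr (C : (delVV M b r).ConnectedComponent) (j : ZMod 2) : ℕ :=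
  (univ.filter (fun v => cm M b r v = C ∧ M.Adj r v ∧ v ≠ b ∧ T0 v = j)).card

/-- size of a component -/
noncomputable def sz (C : (delVV M b r).ConnectedComponent) : ℕ :=
  (univ.filter (fun v => cm M b r v = C)).card

/-- parity sum of a component -/
noncomputable def pp (C : (delVV M b r).ConnectedComponent) : ZMod 2 :=
  ∑ v ∈ univ.filter (fun v => cm M b r v = C), (f v + T0 v)

theorem cutCount_congr {M' : SimpleGraph V} {T T' : V → ZMod 2}
    (h : ∀ u v, M'.Adj u v → (T u = T v ↔ T' u = T' v)) : cutCount M' T = cutCount M' T' := by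
  unfold cutCount
  congr 1
  ext e
  simp only [mem_filter, mem_univ, true_and]
  constructor
  · rintro ⟨h1, h2⟩
    exact ⟨h1, fun h' => h2 ((h _ _ h1).mpr h')⟩
  · rintro ⟨h1, h2⟩
    exact ⟨h1, fun h' => h2 ((h _ _ h1).mp h')⟩

theorem isMaxCut_congr {M' : SimpleGraph V} {T T' : V → ZMod 2} (hT : IsMaxCut M' T)
    (h : ∀ u v, M'.Adj u v → (T u = T v ↔ T' u = T' v)) : IsMaxCut M' T' := by
  intro T''
  rw [← cutCount_congr h]
  exact hT T''

theorem exists_maxCut (M' : SimpleGraph V) : ∃ T : V → ZMod 2, IsMaxCut M' T := by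
  obtain ⟨T, hT⟩ := Finite.exists_max (fun T : V → ZMod 2 => cutCount M' T)
  exact ⟨T, hT⟩

theorem sum_const_comp (C : (delVV M b r).ConnectedComponent) (x : ZMod 2) :
    ∑ v ∈ univ.filter (fun v => cm M b r v = C), (f v + (T0 v + x)) =
      pp M b r T0 f C + sz M b r C * x := by
  unfold pp sz
  rw [show (fun v => f v + (T0 v + x)) = (fun v => (f v + T0 v) + x) by
    funext v; ring]
  rw [sum_add_distrib, sum_const, nsmul_eq_mul]

theorem sum_sz (hbr : b ≠ r) : ∑ C ∈ PC M b r, sz M b r C + 2 = Fintype.card V := by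
  have h1 := sum_oth M b r (fun _ => (1 : ℕ))
  simp only [sum_const, smul_eq_mul, mul_one] at h1
  unfold sz
  rw [← h1]
  have h2 : (univ : Finset V) = insert b (insert r (oth b r)) := by
    ext v
    simp only [mem_univ, mem_insert, mem_oth, true_iff]
    tauto
  rw [← card_univ, h2, card_insert_of_notMem, card_insert_of_notMem]
  · simp [mem_oth]
  · simp [mem_oth, hbr]

theorem reach_nbr {t t' : V} (h : cm M b r t = cm M b r t') (hne : t ≠ t') :
    ∃ u, (delVV M b r).Adj t u := by
  rw [cm_eq] at h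
  obtain ⟨p⟩ := h
  cases p with
  | nil => exact absurd rfl hne
  | cons h _ => exact ⟨_, h⟩

/-- every proper component has a `b`-neighbour if `M - r` is connected -/
theorem exists_bnbr (hdel : ∀ u v, u ≠ r → v ≠ r → (delV M r).Reachable u v) (hbr : b ≠ r)
    {v : V} (h1 : v ≠ b) (h2 : v ≠ r) :
    ∃ x, cm M b r x = cm M b r v ∧ M.Adj b x ∧ x ≠ r := by
  obtain ⟨p⟩ := hdel v b h2 hbr
  obtain ⟨d, _, hd1, hd2⟩ := p.exists_boundary_dart {x | (delVV M b r).Reachable v x}
    (SimpleGraph.Reachable.refl _) (by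
      intro h
      exact h1 (iso_b M b r (SimpleGraph.Reachable.symm h)))
  have hd : (delV M r).Adj d.fst d.snd := d.adj
  have hd' : M.Adj d.fst d.snd ∧ d.fst ≠ r ∧ d.snd ≠ r := hd
  have hf : d.fst ≠ b := by
    intro h
    have hd1' : (delVV M b r).Reachable v d.fst := hd1
    rw [h] at hd1'
    exact h1 (iso_b M b r hd1'.symm)
  by_cases hs : d.snd = b
  · refine ⟨d.fst, ?_, ?_, hd'.2.1⟩
    · rw [cm_eq]
      exact SimpleGraph.Reachable.symm hd1
    · rw [← hs]; exact hd'.1.symm
  · exfalso
    apply hd2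
    have hadj : (delVV M b r).Adj d.fst d.snd :=
      (adjVV M b r).mpr ⟨hd'.1, hf, hd'.2.1, hs, hd'.2.2⟩
    exact SimpleGraph.Reachable.trans hd1 hadj.reachable

theorem nb_pos (hdel : ∀ u v, u ≠ r → v ≠ r → (delV M r).Reachable u v) (hbr : b ≠ r)
    {C : (delVV M b r).ConnectedComponent} (hC : C ∈ PC M b r) :
    1 ≤ nb M b r T0 C 0 + nb M b r T0 C 1 := by
  obtain ⟨v, hv, rfl⟩ := mem_image.mp hC
  rw [mem_oth] at hv
  obtain ⟨x, hx1, hx2, hx3⟩ := exists_bnbr M b r hdel hbr hv.1 hv.2
  have h01 : T0 x = 0 ∨ T0 x = 1 := by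
    generalize T0 x = y
    revert y; decide
  rcases h01 with h | h
  · have : 0 < nb M b r T0 (cm M b r v) 0 := by
      unfold nb
      apply card_pos.mpr
      exact ⟨x, by simp [hx1, hx2, hx3, h]⟩
    omega
  · have : 0 < nb M b r T0 (cm M b r v) 1 := by
      unfold nb
      apply card_pos.mpr
      exact ⟨x, by simp [hx1, hx2, hx3, h]⟩
    omega

theorem exists_nbr_or (hdel : ∀ u v, u ≠ r → v ≠ r → (delV M r).Reachable u v) (hbr : b ≠ r)
    {t : V} (h1 : t ≠ b) (h2 : t ≠ r) : M.Adj b t ∨ ∃ u, (delVV M b r).Adj t u := by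
  obtain ⟨p⟩ := hdel t b h2 hbr
  cases p with
  | nil => exact absurd rfl h1
  | @cons _ y _ h _ =>
    have h' : M.Adj t y ∧ t ≠ r ∧ y ≠ r := h
    by_cases hy : y = b
    · left
      rw [← hy]; exact h'.1.symm
    · right
      exact ⟨y, (adjVV M b r).mpr ⟨h'.1, h1, h'.2.1, hy, h'.2.2⟩⟩

end

end E7

end PoolPW
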