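import Pool.Agent.Helper60.PW.E7a
import Pool.Agent.Helper41.PW.Special
import Pool.Agent.Helper71.PW.E4

/-!
Module E7, part b: component forms of `special` and `central`.
-/

open Finset

namespace PoolPW

namespace E7

set_option linter.unusedSectionVars false

open Classical

theorem z2_cases (x : ZMod 2) : x = 0 ∨ x = 1 := by revert x; decide

theorem z2_ne (x y : ZMod 2) : x ≠ y ↔ x = y + 1 := by revert x y; decide

theorem z2_self (x : ZMod 2) : x + x = 0 := by revert x; decide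

theorem nb_split {V : Type*} [Fintype V] (M : SimpleGraph V) (b r : V) (T0 : V → ZMod 2)
    (g : (delVV M b r).ConnectedComponent → ZMod 2) (T : V → ZMod 2)
    (j : ZMod 2) (hT : ∀ v, v ≠ b → v ≠ r → (T v = T b + j ↔ T0 v = g (cm M b r v) + j)) :
    (univ.filter (fun v => M.Adj b v ∧ v ≠ r ∧ T v = T b + j)).card =
      ∑ C ∈ PC M b r, nb M b r T0 C (g C + j) := by
  rw [card_oth' M b r]
  · apply sum_congr rfl
    intro C hC
    unfold nb
    congr 1
    ext v
    simp only [mem_filter, mem_univ, true_and]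
    constructor
    · rintro ⟨h1, h2, h3, h4⟩
      have hvb : v ≠ b := fun h => M.loopless.irrefl b (h ▸ h2)
      exact ⟨h1, h2, h3, by rw [← h1]; exact (hT v hvb h3).mp h4⟩
    · rintro ⟨h1, h2, h3, h4⟩
      have hvb : v ≠ b := fun h => M.loopless.irrefl b (h ▸ h2)
      exact ⟨h1, h2, h3, (hT v hvb h3).mpr (by rw [h1]; exact h4)⟩
  · rintro v ⟨h1, h2, _⟩
    exact ⟨fun h => M.loopless.irrefl b (h ▸ h1), h2⟩

theorem nr_split {V : Type*} [Fintype V] (M : SimpleGraph V) (b r : V) (T0 : V → ZMod 2)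
    (g : (delVV M b r).ConnectedComponent → ZMod 2) (T : V → ZMod 2)
    (j : ZMod 2) (hT : ∀ v, v ≠ b → v ≠ r → (T v = T b + j ↔ T0 v = g (cm M b r v) + j)) :
    (univ.filter (fun v => M.Adj r v ∧ v ≠ b ∧ T v = T b + j)).card =
      ∑ C ∈ PC M b r, nr M b r T0 C (g C + j) := by
  rw [card_oth' M b r]
  · apply sum_congr rfl
    intro C hC
    unfold nr
    congr 1
    ext v
    simp only [mem_filter, mem_univ, true_and]
    constructor
    · rintro ⟨h1, h2, h3, h4⟩
      have hvr : v ≠ r := fun h => M.loopless.irrefl r (h ▸ h2)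
      exact ⟨h1, h2, h3, by rw [← h1]; exact (hT v h3 hvr).mp h4⟩
    · rintro ⟨h1, h2, h3, h4⟩
      have hvr : v ≠ r := fun h => M.loopless.irrefl r (h ▸ h2)
      exact ⟨h1, h2, h3, (hT v h3 hvr).mpr (by rw [h1]; exact h4)⟩
  · rintro v ⟨h1, h2, _⟩
    exact ⟨h2, fun h => M.loopless.irrefl r (h ▸ h1)⟩

theorem z2_a : ∀ x y t j : ZMod 2, (x + (t + y) = t + j ↔ x = y + j) := by decide

theorem z2_b : ∀ x y t : ZMod 2, (x + (t + y) ≠ t ↔ x = y + 1) := by decide

theorem z2_c : ∀ x y : ZMod 2, x + y + (y + x) = 0 := by decide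

/-- component form of `special` -/
theorem lemK {V : Type*} [Fintype V] (M : SimpleGraph V) (β : V → ℕ) (a z c : ℝ)
    (hac : a < c) (hzc : z < c) (Φ : ℝ → ZMod 2)
    (h1 : ∀ t, Φ (t + (c - a)) = Φ t) (h2 : ∀ t, Φ (t + (z - a)) = Φ t + 1)
    (b r : V) (hbr : b ≠ r)
    (hdel : ∀ u v, u ≠ r → v ≠ r → (delV M r).Reachable u v)
    (hV : Even (Fintype.card V))
    (hord : ∀ t, M.Adj r t → t ≠ b → c * (dg M t + β t) ≤ c * (dg M r + β r))
    (T0 : V → ZMod 2) (hT0 : IsMaxCut (delVV M b r) T0)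
    (f : V → ZMod 2) (hf : ∀ v, f v = Φ (a * (dg M v + β v)))
    (g : (delVV M b r).ConnectedComponent → ZMod 2)
    (k : (delVV M b r).ConnectedComponent → ℕ)
    (hk : ∀ C ∈ PC M b r, k C ≤ nb M b r T0 C (g C + 1))
    (pb : ℕ) (hpb : pb ≤ 1) (hpb' : pb ≤ β b)
    (τ : ZMod 2) (hτ : τ = f b + ∑ C ∈ PC M b r, (pp M b r T0 f C + sz M b r C * g C))
    (hlink : ∀ C ∈ PC M b r, nb M b r T0 C (g C) = 0 → k C = nb M b r T0 C (g C + 1) →
      pp M b r T0 f C + sz M b r C * (τ + g C) = 0)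
    (hrisk : ∀ t, t ≠ b → t ≠ r → M.Adj b t → M.Adj r t → T0 t = g (cm M b r t) + 1 →
      0 < k (cm M b r t) → τ + 1 = f r → (∃ u, (delVV M b r).Adj t u) ∨ 0 < β t ∨
      c * (dg M t + β t) ≠ c * (dg M r + β r))
    (hcase : (∑ C ∈ PC M b r, nb M b r T0 C (g C) ≤ ∑ C ∈ PC M b r, k C ∧ pb = 0 ∧
        (¬ M.Adj b r ∨ τ ≠ f r ∨
          (c * (dg M b + β b) ≤ c * (dg M r + β r) ∧ 2 ≤ dg M b + β b))) ∨
      (∑ C ∈ PC M b r, nb M b r T0 C (g C) + 1 ≤ ∑ C ∈ PC M b r, k C + pb ∧ τ = f r)) :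
    Good M β a z c := by
  set T : V → ZMod 2 := fun v => if v = b then τ else if v = r then f r else
    T0 v + (τ + g (cm M b r v)) with hTdef
  have hTb : T b = τ := by simp [hTdef]
  have hTr : T r = f r := by simp [hTdef, hbr.symm]
  have hTv : ∀ v, v ≠ b → v ≠ r → T v = T0 v + (τ + g (cm M b r v)) := by
    intro v hvb hvr
    simp [hTdef, hvb, hvr]
  clear_value T
  have hTj : ∀ (j : ZMod 2) v, v ≠ b → v ≠ r →
      (T v = T b + j ↔ T0 v = g (cm M b r v) + j) := by
    intro j v hvb hvr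
    rw [hTv v hvb hvr, hTb]
    exact z2_a _ _ _ _
  -- the sum that we need
  obtain ⟨K, hK1, hK2⟩ : ∃ K, K ≤ ∑ C ∈ PC M b r, k C ∧
      ((K + pb = ∑ C ∈ PC M b r, nb M b r T0 C (g C) ∧ pb = 0 ∧
        (¬ M.Adj b r ∨ τ ≠ f r ∨
          (c * (dg M b + β b) ≤ c * (dg M r + β r) ∧ 2 ≤ dg M b + β b))) ∨
      (K + pb = ∑ C ∈ PC M b r, nb M b r T0 C (g C) + 1 ∧ τ = f r)) := by
    rcases hcase with ⟨e1, e2, e3⟩ | ⟨e1, e2⟩
    · exact ⟨_, e1, Or.inl ⟨by omega, e2, e3⟩⟩
    · exact ⟨∑ C ∈ PC M b r, nb M b r T0 C (g C) + 1 - pb, by omega, Or.inr ⟨by omega, e2⟩⟩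
  obtain ⟨k', hk'1, hk'2⟩ := exists_le_sum (PC M b r) k K hK1
  obtain ⟨Bb, hB1, hB2, hB3⟩ := choose_sub M b r
    (fun v => M.Adj b v ∧ v ≠ r ∧ T0 v = g (cm M b r v) + 1) k' (by
      intro C hC
      refine (hk'1 C).trans ((hk C hC).trans ?_)
      unfold nb
      apply card_le_card
      intro v hv
      simp only [mem_filter, mem_univ, true_and] at hv ⊢
      obtain ⟨e1, e2, e3, e4⟩ := hv
      exact ⟨e1, e2, e3, by rw [e1]; exact e4⟩)
  have hadjb : ∀ v, M.Adj b v → v ≠ b := by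
    rintro v h rfl
    exact M.loopless.irrefl _ h
  have hNb : (univ.filter (fun v => M.Adj b v ∧ v ≠ r ∧ T v = T b)).card =
      ∑ C ∈ PC M b r, nb M b r T0 C (g C) := by
    have := nb_split M b r T0 g T 0 (hTj 0)
    simpa only [add_zero] using this
  apply special M β a z c hac hzc Φ h1 h2 b r hbr T
  · -- maximum cut
    apply isMaxCut_congr hT0
    intro u v huv
    obtain ⟨_, e1, e2, e3, e4⟩ := (adjVV M b r).mp huv
    have : cm M b r u = cm M b r v := (cm_eq M b r).mpr huv.reachable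
    rw [hTv u e1 e2, hTv v e3 e4, this]
    exact add_right_cancel_iff.symm
  · rw [hTr, hf]
  · -- total parity
    have e1 : (univ.erase r : Finset V) = insert b (oth b r) := by
      ext v
      simp only [mem_erase, mem_univ, and_true, mem_insert, mem_oth]
      constructor
      · intro h
        by_cases hv : v = b
        · exact Or.inl hv
        · exact Or.inr ⟨hv, h⟩
      · rintro (rfl | h)
        · exact hbr
        · exact h.2
    rw [e1, sum_insert (by simp [mem_oth]), sum_oth M b r, hTb, ← hf]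
    have e2 : ∀ C ∈ PC M b r, ∑ v ∈ univ.filter (fun v => cm M b r v = C),
        (Φ (a * (dg M v + β v)) + T v) =
        (pp M b r T0 f C + sz M b r C * g C) + (sz M b r C : ZMod 2) * τ := by
      intro C hC
      have e3 : ∀ v ∈ univ.filter (fun v => cm M b r v = C),
          (Φ (a * (dg M v + β v)) + T v) = f v + (T0 v + (τ + g C)) := by
        intro v hv
        simp only [mem_filter, mem_univ, true_and] at hv
        have := of_cm_mem M b r (v := v) (by rw [hv]; exact hC)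
        rw [hTv v this.1 this.2, hv, hf]
      rw [sum_congr rfl e3, sum_const_comp]
      ring
    rw [sum_congr rfl e2, sum_add_distrib, ← sum_mul]
    have e4 : (∑ C ∈ PC M b r, (sz M b r C : ZMod 2)) = 0 := by
      have e5 := sum_sz M b r hbr
      rw [← Nat.cast_sum]
      obtain ⟨m, hm⟩ := hV
      have : ∑ C ∈ PC M b r, sz M b r C = 2 * (m - 1) := by omega
      rw [this]
      push_cast
      have : (2 : ZMod 2) = 0 := by decide
      rw [this, zero_mul]
    rw [e4, zero_mul, add_zero]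
    have e6 : ∑ C ∈ PC M b r, (pp M b r T0 f C + sz M b r C * g C) = τ + f b := by
      rw [hτ]
      generalize ∑ C ∈ PC M b r, (pp M b r T0 f C + sz M b r C * g C) = x
      generalize f b = y
      revert x y
      decide
    rw [e6]
    exact z2_c _ _
  · -- the variable edges
    intro s hs
    obtain ⟨e1, e2, e3⟩ := hB1 s hs
    refine ⟨e1, e2, ?_⟩
    rw [z2_ne]
    exact (hTj 1 s (hadjb s e1) e2).mpr e3
  · exact hpb
  · exact hpb'
  · -- links
    intro u hub hur hall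
    have hC : cm M b r u ∈ PC M b r := cm_mem M b r hub hur
    have e1 : univ.filter (fun v => (delVV M b r).Reachable u v) =
        univ.filter (fun v => cm M b r v = cm M b r u) := by
      ext v
      simp only [mem_filter, mem_univ, true_and]
      rw [cm_eq]
      exact ⟨fun h => h.symm, fun h => h.symm⟩
    rw [e1]
    have e3 : ∀ v ∈ univ.filter (fun v => cm M b r v = cm M b r u),
        (Φ (a * (dg M v + β v)) + T v) = f v + (T0 v + (τ + g (cm M b r u))) := by
      intro v hv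
      simp only [mem_filter, mem_univ, true_and] at hv
      have := of_cm_mem M b r (v := v) (by rw [hv]; exact hC)
      rw [hTv v this.1 this.2, hv, hf]
    rw [sum_congr rfl e3, sum_const_comp]
    apply hlink _ hC
    · unfold nb
      rw [card_eq_zero, filter_eq_empty_iff]
      rintro v _ ⟨e4, e5, e6, e7⟩
      have e8 : (delVV M b r).Reachable u v := ((cm_eq M b r).mp e4).symm
      have e9 := (hB1 v (hall v e8 e5)).2.2
      rw [e4, e7] at e9
      generalize g (cm M b r u) = y at e9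
      revert y; decide
    · have e4 : nb M b r T0 (cm M b r u) (g (cm M b r u) + 1) ≤
          (Bb.filter (fun v => cm M b r v = cm M b r u)).card := by
        unfold nb
        apply card_le_card
        intro v hv
        simp only [mem_filter, mem_univ, true_and] at hv ⊢
        obtain ⟨e4, e5, e6, e7⟩ := hv
        exact ⟨hall v ((cm_eq M b r).mp e4).symm e5, e4⟩
      rw [hB3 _ hC] at e4
      exact le_antisymm (hk _ hC) (e4.trans (hk'1 _))
  · -- counting
    rw [hNb, hB2, hk'2, hTb, hTr]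
    exact hK2
  · exact hord
  · intro t ht htb
    exact exists_nbr_or M b r hdel hbr htb (fun h => M.loopless.irrefl r (h ▸ ht))
  · intro t ht hrt hTt
    obtain ⟨e1, e2, e3⟩ := hB1 t ht
    have htb := hadjb t e1
    apply hrisk t htb e2 e1 hrt e3
    · have hC := cm_mem M b r htb e2
      have : 0 < (Bb.filter (fun v => cm M b r v = cm M b r t)).card :=
        card_pos.mpr ⟨t, mem_filter.mpr ⟨ht, rfl⟩⟩
      rw [hB3 _ hC] at this
      exact this.trans_le (hk'1 _)
    · rw [← hTr, ← hTt, ← hTb]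
      exact ((hTj 1 t htb e2).mpr e3).symm

theorem z2_d : ∀ x y : ZMod 2, (x + y = 0 ↔ x = y) := by decide

theorem z2_e : ∀ x y : ZMod 2, (x + y ≠ 0 ↔ x = y + 1) := by decide

theorem z2_f : ∀ x y j : ZMod 2, (x + y = 0 + j ↔ x = y + j) := by decide

/-- component form of `central` -/
theorem lemK2 {V : Type*} [Fintype V] (M : SimpleGraph V) (β : V → ℕ) (a z c : ℝ)
    (hac : a ≠ c) (Φ : ℝ → ZMod 2)
    (h1 : ∀ t, Φ (t + (c - a)) = Φ t) (h2 : ∀ t, Φ (t + (z - a)) = Φ t + 1)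
    (b r : V) (hbr : M.Adj b r)
    (hV : Even (Fintype.card V))
    (T0 : V → ZMod 2) (hT0 : IsMaxCut (delVV M b r) T0)
    (f : V → ZMod 2) (hf : ∀ v, f v = Φ (a * (dg M v + β v)))
    (g : (delVV M b r).ConnectedComponent → ZMod 2)
    (kb kr : (delVV M b r).ConnectedComponent → ℕ)
    (hkb : ∀ C ∈ PC M b r, kb C ≤ nb M b r T0 C (g C + 1))
    (hkr : ∀ C ∈ PC M b r, kr C ≤ nr M b r T0 C (g C + 1))
    (hsz : ∀ C ∈ PC M b r, Even (sz M b r C))
    (htot : f b + f r + ∑ C ∈ PC M b r, pp M b r T0 f C = 0)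
    (hlink : ∀ C ∈ PC M b r, nb M b r T0 C (g C) = 0 → kb C = nb M b r T0 C (g C + 1) →
      nr M b r T0 C (g C) = 0 → kr C = nr M b r T0 C (g C + 1) → pp M b r T0 f C = 0)
    (Nb Nr : ℕ) (hNb : Nb = ∑ C ∈ PC M b r, nb M b r T0 C (g C))
    (hNr : Nr = ∑ C ∈ PC M b r, nr M b r T0 C (g C))
    (hcase : (Nb + 1 ≤ ∑ C ∈ PC M b r, kb C ∧ Nr ≤ ∑ C ∈ PC M b r, kr C) ∨
      (Nb ≤ ∑ C ∈ PC M b r, kb C ∧ Nr ≤ ∑ C ∈ PC M b r, kr C ∧
        (Nr + 1 ≤ ∑ C ∈ PC M b r, kr C ∨ 1 ≤ β r)) ∨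
      (Nb ≤ ∑ C ∈ PC M b r, kb C ∧ Nr ≤ ∑ C ∈ PC M b r, kr C ∧ Nb ≠ Nr) ∨
      (Nb ≤ ∑ C ∈ PC M b r, kb C + 1 ∧ 1 ≤ Nb ∧ Nr + 1 ≤ ∑ C ∈ PC M b r, kr C)) :
    Good M β a z c := by
  have hbr' : b ≠ r := hbr.ne
  set T : V → ZMod 2 := fun v => if v = b ∨ v = r then 0 else T0 v + g (cm M b r v) with hTdef
  have hTb : T b = 0 := by simp [hTdef]
  have hTr : T r = 0 := by simp [hTdef]
  have hTv : ∀ v, v ≠ b → v ≠ r → T v = T0 v + g (cm M b r v) := by
    intro v hvb hvr
    simp [hTdef, hvb, hvr]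
  clear_value T
  have hTj : ∀ (j : ZMod 2) v, v ≠ b → v ≠ r →
      (T v = T b + j ↔ T0 v = g (cm M b r v) + j) := by
    intro j v hvb hvr
    rw [hTv v hvb hvr, hTb]
    exact z2_f _ _ _
  obtain ⟨Kb, Kr, pr, hKb, hKr, hpr1, hpr2, hnum⟩ : ∃ Kb Kr pr : ℕ,
      Kb ≤ ∑ C ∈ PC M b r, kb C ∧ Kr ≤ ∑ C ∈ PC M b r, kr C ∧ pr ≤ 1 ∧ pr ≤ β r ∧
      ((Kb = Nb + 1 ∧ Kr + pr = Nr) ∨ (Kb = Nb ∧ Kr + pr = Nr + 1) ∨
      (Kb = Nb ∧ Kr + pr = Nr ∧ Nb ≠ Nr) ∨ (Kb + 1 = Nb ∧ Kr + pr = Nr + 1)) := by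
    rcases hcase with ⟨e1, e2⟩ | ⟨e1, e2, e3⟩ | ⟨e1, e2, e3⟩ | ⟨e1, e2, e3⟩
    · exact ⟨Nb + 1, Nr, 0, e1, e2, by omega, by omega, Or.inl ⟨rfl, rfl⟩⟩
    · by_cases e4 : Nr + 1 ≤ ∑ C ∈ PC M b r, kr C
      · exact ⟨Nb, Nr + 1, 0, e1, e4, by omega, by omega, Or.inr (Or.inl ⟨rfl, rfl⟩)⟩
      · exact ⟨Nb, Nr, 1, e1, e2, by omega, by omega, Or.inr (Or.inl ⟨rfl, rfl⟩)⟩
    · exact ⟨Nb, Nr, 0, e1, e2, by omega, by omega, Or.inr (Or.inr (Or.inl ⟨rfl, rfl, e3⟩))⟩
    · exact ⟨Nb - 1, Nr + 1, 0, by omega, e3, by omega, by omega,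
        Or.inr (Or.inr (Or.inr ⟨by omega, rfl⟩))⟩
  obtain ⟨kb', hkb'1, hkb'2⟩ := exists_le_sum (PC M b r) kb Kb hKb
  obtain ⟨kr', hkr'1, hkr'2⟩ := exists_le_sum (PC M b r) kr Kr hKr
  obtain ⟨Bb, hB1, hB2, hB3⟩ := choose_sub M b r
    (fun v => M.Adj b v ∧ v ≠ r ∧ T0 v = g (cm M b r v) + 1) kb' (by
      intro C hC
      refine (hkb'1 C).trans ((hkb C hC).trans ?_)
      unfold nb
      apply card_le_card
      intro v hv
      simp only [mem_filter, mem_univ, true_and] at hv ⊢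
      obtain ⟨e1, e2, e3, e4⟩ := hv
      exact ⟨e1, e2, e3, by rw [e1]; exact e4⟩)
  obtain ⟨Br, hR1, hR2, hR3⟩ := choose_sub M b r
    (fun v => M.Adj r v ∧ v ≠ b ∧ T0 v = g (cm M b r v) + 1) kr' (by
      intro C hC
      refine (hkr'1 C).trans ((hkr C hC).trans ?_)
      unfold nr
      apply card_le_card
      intro v hv
      simp only [mem_filter, mem_univ, true_and] at hv ⊢
      obtain ⟨e1, e2, e3, e4⟩ := hv
      exact ⟨e1, e2, e3, by rw [e1]; exact e4⟩)
  have hadjb : ∀ v, M.Adj b v → v ≠ b := by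
    rintro v h rfl
    exact M.loopless.irrefl _ h
  have hadjr : ∀ v, M.Adj r v → v ≠ r := by
    rintro v h rfl
    exact M.loopless.irrefl _ h
  have hNb' : (univ.filter (fun v => M.Adj b v ∧ v ≠ r ∧ T v = T b)).card = Nb := by
    have := nb_split M b r T0 g T 0 (hTj 0)
    rw [hNb]
    simpa only [add_zero] using this
  have hNr' : (univ.filter (fun v => M.Adj r v ∧ v ≠ b ∧ T v = T b)).card = Nr := by
    have := nr_split M b r T0 g T 0 (hTj 0)
    rw [hNr]
    simpa only [add_zero] using this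
  have hreach : ∀ u, univ.filter (fun v => (delVV M b r).Reachable u v) =
        univ.filter (fun v => cm M b r v = cm M b r u) := by
    intro u
    ext v
    simp only [mem_filter, mem_univ, true_and]
    rw [cm_eq]
    exact ⟨fun h => h.symm, fun h => h.symm⟩
  have hszc : ∀ C ∈ PC M b r, (sz M b r C : ZMod 2) = 0 := by
    intro C hC
    obtain ⟨m, hm⟩ := hsz C hC
    rw [hm]
    push_cast
    exact z2_self _
  have hcomp : ∀ C ∈ PC M b r, ∑ v ∈ univ.filter (fun v => cm M b r v = C),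
      (Φ (a * (dg M v + β v)) + T v) = pp M b r T0 f C := by
    intro C hC
    have e3 : ∀ v ∈ univ.filter (fun v => cm M b r v = C),
        (Φ (a * (dg M v + β v)) + T v) = f v + (T0 v + g C) := by
      intro v hv
      simp only [mem_filter, mem_univ, true_and] at hv
      have := of_cm_mem M b r (v := v) (by rw [hv]; exact hC)
      rw [hTv v this.1 this.2, hv, hf]
    rw [sum_congr rfl e3, sum_const_comp, hszc C hC, zero_mul, add_zero]
  apply central M β a z c hac Φ h1 h2 b r hbr T (Bb := Bb) (Br := Br) (pr := pr)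
    (nb := Nb) (nr := Nr)
  · -- maximum cut
    apply isMaxCut_congr hT0
    intro u v huv
    obtain ⟨_, e1, e2, e3, e4⟩ := (adjVV M b r).mp huv
    have : cm M b r u = cm M b r v := (cm_eq M b r).mpr huv.reachable
    rw [hTv u e1 e2, hTv v e3 e4, this]
    exact add_right_cancel_iff.symm
  · rw [hTb, hTr]
  · exact hV
  · intro u hub hur
    rw [hreach u]
    exact hsz _ (cm_mem M b r hub hur)
  · -- total parity
    have e1 : (univ : Finset V) = insert b (insert r (oth b r)) := by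
      ext v
      simp only [mem_univ, mem_insert, mem_oth, true_iff]
      tauto
    rw [e1, sum_insert (by simp [mem_oth, hbr']), sum_insert (by simp [mem_oth]),
      sum_oth M b r, hTb, hTr, ← hf, ← hf, sum_congr rfl hcomp, add_zero, add_zero, ← add_assoc]
    exact htot
  · intro s hs
    obtain ⟨e1, e2, e3⟩ := hB1 s hs
    refine ⟨e1, e2, ?_⟩
    rw [z2_ne]
    exact (hTj 1 s (hadjb s e1) e2).mpr e3
  · intro s hs
    obtain ⟨e1, e2, e3⟩ := hR1 s hs
    refine ⟨e1, e2, ?_⟩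
    rw [z2_ne]
    exact (hTj 1 s e2 (hadjr s e1)).mpr e3
  · exact hpr1
  · exact hpr2
  · -- links
    intro u hub hur hall hall'
    have hC : cm M b r u ∈ PC M b r := cm_mem M b r hub hur
    rw [hreach u, hcomp _ hC]
    apply hlink _ hC
    · unfold nb
      rw [card_eq_zero, filter_eq_empty_iff]
      rintro v _ ⟨e4, e5, e6, e7⟩
      have e8 : (delVV M b r).Reachable u v := ((cm_eq M b r).mp e4).symm
      have e9 := (hB1 v (hall v e8 e5)).2.2
      rw [e4, e7] at e9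
      generalize g (cm M b r u) = y at e9
      revert y; decide
    · have e4 : nb M b r T0 (cm M b r u) (g (cm M b r u) + 1) ≤
          (Bb.filter (fun v => cm M b r v = cm M b r u)).card := by
        unfold nb
        apply card_le_card
        intro v hv
        simp only [mem_filter, mem_univ, true_and] at hv ⊢
        obtain ⟨e4, e5, e6, e7⟩ := hv
        exact ⟨hall v ((cm_eq M b r).mp e4).symm e5, e4⟩
      rw [hB3 _ hC] at e4
      exact le_antisymm (hkb _ hC) (e4.trans (hkb'1 _))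
    · unfold nr
      rw [card_eq_zero, filter_eq_empty_iff]
      rintro v _ ⟨e4, e5, e6, e7⟩
      have e8 : (delVV M b r).Reachable u v := ((cm_eq M b r).mp e4).symm
      have e9 := (hR1 v (hall' v e8 e5)).2.2
      rw [e4, e7] at e9
      generalize g (cm M b r u) = y at e9
      revert y; decide
    · have e4 : nr M b r T0 (cm M b r u) (g (cm M b r u) + 1) ≤
          (Br.filter (fun v => cm M b r v = cm M b r u)).card := by
        unfold nr
        apply card_le_card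
        intro v hv
        simp only [mem_filter, mem_univ, true_and] at hv ⊢
        obtain ⟨e4, e5, e6, e7⟩ := hv
        exact ⟨hall' v ((cm_eq M b r).mp e4).symm e5, e4⟩
      rw [hR3 _ hC] at e4
      exact le_antisymm (hkr _ hC) (e4.trans (hkr'1 _))
  · exact hNb'.symm
  · exact hNr'.symm
  · rw [hB2, hR2, hkb'2, hkr'2]
    exact hnum

end E7

end PoolPW
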