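import Pool.Agent.Helper60.PW.E7b

/-!
Module E7, part c: auxiliary facts for the induction step.
-/

open Finset

namespace PoolPW

namespace E7

set_option linter.unusedSectionVars false

open Classical

/-- half of a finite set carries at least half of the weight -/
theorem half {ι : Type*} (N : Finset ι) (w : ι → ℤ) (hw : ∀ i ∈ N, 1 ≤ w i) :
    ∃ S ⊆ N, 2 * S.card = N.card + N.card % 2 ∧
      ∑ i ∈ N \ S, w i + (N.card % 2 : ℕ) ≤ ∑ i ∈ S, w i := by
  have key : ∀ N' : Finset ι, N'.card % 2 = 0 → ∃ S ⊆ N', 2 * S.card = N'.card ∧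
      ∑ i ∈ N' \ S, w i ≤ ∑ i ∈ S, w i := by
    intro N' hN'
    obtain ⟨S, hS, hS2⟩ := exists_subset_card_eq (s := N') (n := N'.card / 2) (by omega)
    by_cases h : ∑ i ∈ N' \ S, w i ≤ ∑ i ∈ S, w i
    · exact ⟨S, hS, by omega, h⟩
    · refine ⟨N' \ S, sdiff_subset, ?_, ?_⟩
      · rw [card_sdiff_of_subset hS]; omega
      · rw [Finset.sdiff_sdiff_eq_self hS]; omega
  rcases Nat.mod_two_eq_zero_or_one N.card with h | h
  · obtain ⟨S, hS, h1, h2⟩ := key N h
    exact ⟨S, hS, by omega, by rw [h]; simpa using h2⟩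
  · obtain ⟨x, hx⟩ : N.Nonempty := by
      rw [← card_pos]; omega
    obtain ⟨S, hS, h1, h2⟩ := key (N.erase x) (by rw [card_erase_of_mem hx]; omega)
    have hxS : x ∉ S := fun h => absurd (hS h) (notMem_erase x N)
    refine ⟨insert x S, ?_, ?_, ?_⟩
    · intro y hy
      rcases mem_insert.mp hy with rfl | hy
      · exact hx
      · exact mem_of_mem_erase (hS hy)
    · rw [card_insert_of_notMem hxS]
      rw [card_erase_of_mem hx] at h1
      have : 0 < N.card := card_pos.mpr ⟨x, hx⟩
      omega
    · rw [sum_insert hxS, h]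
      have e1 : N \ insert x S = N.erase x \ S := by
        ext y
        simp only [mem_sdiff, mem_insert, mem_erase]
        tauto
      rw [e1]
      have := hw x hx
      push_cast
      linarith

section

variable {V : Type*} [Fintype V] (M : SimpleGraph V) (b r : V) (T0 f : V → ZMod 2)

theorem nb_two {C : (delVV M b r).ConnectedComponent} {t : V} (hC : cm M b r t = C)
    {g : ZMod 2} (ht : T0 t = g + 1) (h : 0 < nb M b r T0 C g) :
    ∃ u, (delVV M b r).Adj t u := by
  unfold nb at h
  obtain ⟨v, hv⟩ := card_pos.mp h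
  simp only [mem_filter, mem_univ, true_and] at hv
  apply reach_nbr M b r (t' := v) (by rw [hC, hv.1])
  rintro rfl
  rw [hv.2.2.2] at ht
  revert ht
  generalize g = x
  revert x; decide

theorem nb_tot (C : (delVV M b r).ConnectedComponent) (g : ZMod 2) :
    nb M b r T0 C g + nb M b r T0 C (g + 1) =
      (univ.filter (fun v => cm M b r v = C ∧ M.Adj b v ∧ v ≠ r)).card := by
  unfold nb
  rw [← card_union_of_disjoint]
  · congr 1
    ext v
    simp only [mem_union, mem_filter, mem_univ, true_and]
    have : T0 v = g ∨ T0 v = g + 1 := by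
      generalize T0 v = x
      revert x g; decide
    tauto
  · rw [disjoint_left]
    intro v h1 h2
    simp only [mem_filter, mem_univ, true_and] at h1 h2
    have e1 := h1.2.2.2
    have e2 := h2.2.2.2
    rw [e1] at e2
    revert e2
    generalize g = x
    revert x; decide

theorem nr_tot (C : (delVV M b r).ConnectedComponent) (g : ZMod 2) :
    nr M b r T0 C g + nr M b r T0 C (g + 1) =
      (univ.filter (fun v => cm M b r v = C ∧ M.Adj r v ∧ v ≠ b)).card := by
  unfold nr
  rw [← card_union_of_disjoint]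
  · congr 1
    ext v
    simp only [mem_union, mem_filter, mem_univ, true_and]
    have : T0 v = g ∨ T0 v = g + 1 := by
      generalize T0 v = x
      revert x g; decide
    tauto
  · rw [disjoint_left]
    intro v h1 h2
    simp only [mem_filter, mem_univ, true_and] at h1 h2
    have e1 := h1.2.2.2
    have e2 := h2.2.2.2
    rw [e1] at e2
    revert e2
    generalize g = x
    revert x; decide

theorem nb_pos' (hdel : ∀ u v, u ≠ r → v ≠ r → (delV M r).Reachable u v) (hbr : b ≠ r)
    {C : (delVV M b r).ConnectedComponent} (hC : C ∈ PC M b r) (g : ZMod 2) :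
    1 ≤ nb M b r T0 C g + nb M b r T0 C (g + 1) := by
  have h1 := nb_pos M b r T0 hdel hbr hC
  have h2 := nb_tot M b r T0 C g
  have h3 := nb_tot M b r T0 C 0
  rw [zero_add] at h3
  omega

theorem dg_b (hbr : M.Adj b r) (g : (delVV M b r).ConnectedComponent → ZMod 2) :
    dg M b = 1 + ∑ C ∈ PC M b r, (nb M b r T0 C (g C) + nb M b r T0 C (g C + 1)) := by
  have h1 : (univ.filter (fun v => M.Adj b v)) =
      insert r (univ.filter (fun v => M.Adj b v ∧ v ≠ r)) := by
    ext v
    simp only [mem_filter, mem_univ, true_and, mem_insert]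
    constructor
    · intro h
      by_cases hv : v = r
      · exact Or.inl hv
      · exact Or.inr ⟨h, hv⟩
    · rintro (rfl | h)
      · exact hbr
      · exact h.1
  unfold dg
  rw [h1, card_insert_of_notMem (by simp), card_oth' M b r]
  · rw [add_comm]
    congr 1
    apply sum_congr rfl
    intro C _
    rw [nb_tot]
  · rintro v ⟨e1, e2⟩
    exact ⟨fun h => M.loopless.irrefl b (h ▸ e1), e2⟩

theorem dg_r (hbr : M.Adj b r) (g : (delVV M b r).ConnectedComponent → ZMod 2) :
    dg M r = 1 + ∑ C ∈ PC M b r, (nr M b r T0 C (g C) + nr M b r T0 C (g C + 1)) := by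
  have h1 : (univ.filter (fun v => M.Adj r v)) =
      insert b (univ.filter (fun v => M.Adj r v ∧ v ≠ b)) := by
    ext v
    simp only [mem_filter, mem_univ, true_and, mem_insert]
    constructor
    · intro h
      by_cases hv : v = b
      · exact Or.inl hv
      · exact Or.inr ⟨h, hv⟩
    · rintro (rfl | h)
      · exact hbr.symm
      · exact h.1
  unfold dg
  rw [h1, card_insert_of_notMem (by simp), card_oth' M b r]
  · rw [add_comm]
    congr 1
    apply sum_congr rfl
    intro C _
    rw [nr_tot]
  · rintro v ⟨e1, e2⟩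
    exact ⟨e2, fun h => M.loopless.irrefl r (h ▸ e1)⟩

theorem sum_upd {A : Type*} [AddCommMonoid A] {ι : Type*} (s : Finset ι)
    (F : ι → ZMod 2 → A) (g : ι → ZMod 2) (i : ι) (hi : i ∈ s) (y : ZMod 2) :
    ∑ j ∈ s, F j (Function.update g i y j) = F i y + ∑ j ∈ s.erase i, F j (g j) := by
  rw [← add_sum_erase s _ hi, Function.update_self]
  congr 1
  apply sum_congr rfl
  intro j hj
  rw [Function.update_of_ne (ne_of_mem_erase hj)]

/-- the class of `b` -/
noncomputable def tau (g : (delVV M b r).ConnectedComponent → ZMod 2) : ZMod 2 :=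
  f b + ∑ C ∈ PC M b r, (pp M b r T0 f C + sz M b r C * g C)

theorem odd_cast {n : ℕ} (h : ¬ Even n) : (n : ZMod 2) = 1 := by
  rw [Nat.not_even_iff_odd] at h
  obtain ⟨m, rfl⟩ := h
  push_cast
  have : (2 : ZMod 2) = 0 := by decide
  rw [this, zero_mul, zero_add]

theorem even_cast {n : ℕ} (h : Even n) : (n : ZMod 2) = 0 := by
  obtain ⟨m, rfl⟩ := h
  push_cast
  exact z2_self _

theorem tau_upd (g : (delVV M b r).ConnectedComponent → ZMod 2)
    (C : (delVV M b r).ConnectedComponent) (hC : C ∈ PC M b r) (hodd : ¬ Even (sz M b r C)) :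
    tau M b r T0 f (Function.update g C (g C + 1)) = tau M b r T0 f g + 1 := by
  unfold tau
  rw [sum_upd (PC M b r) (fun D y => pp M b r T0 f D + sz M b r D * y) g C hC,
    ← add_sum_erase (PC M b r) (fun C => pp M b r T0 f C + sz M b r C * g C) hC, odd_cast hodd]
  ring

end

end E7

end PoolPW
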