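import Pool.Agent.Helper60.PW.E7c

/-!
Module E7, part d: the induction step.
-/

open Finset

namespace PoolPW

namespace E7

set_option linter.unusedSectionVars false

open Classical

theorem z2_g : ∀ x y : ZMod 2, ¬ (x = y) → x + 1 = y := by decide

theorem z2_h : ∀ x : ZMod 2, x + 1 + 1 = x := by decide

/-- all components are even and have a favourable orientation -/
theorem all_even {V : Type*} [Fintype V] (M : SimpleGraph V) (β : V → ℕ) (a z c : ℝ)
    (hac : a < c) (hzc : z < c) (Φ : ℝ → ZMod 2)
    (h1 : ∀ t, Φ (t + (c - a)) = Φ t) (h2 : ∀ t, Φ (t + (z - a)) = Φ t + 1)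
    (b r : V) (hbr : b ≠ r)
    (hdel : ∀ u v, u ≠ r → v ≠ r → (delV M r).Reachable u v)
    (hV : Even (Fintype.card V))
    (hord : ∀ t, M.Adj r t → t ≠ b → c * (dg M t + β t) ≤ c * (dg M r + β r))
    (T0 : V → ZMod 2) (hT0 : IsMaxCut (delVV M b r) T0)
    (f : V → ZMod 2) (hf : ∀ v, f v = Φ (a * (dg M v + β v)))
    (hbad : ¬ Good M β a z c) :
    ∃ g0 : (delVV M b r).ConnectedComponent → ZMod 2, M.Adj b r ∧ tau M b r T0 f g0 = f r ∧
      ¬ (c * (dg M b + β b) ≤ c * (dg M r + β r) ∧ 2 ≤ dg M b + β b) ∧ β b = 0 ∧
      (∀ C ∈ PC M b r, Even (sz M b r C)) ∧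
      (∀ C ∈ PC M b r, nb M b r T0 C (g0 C) = nb M b r T0 C (g0 C + 1) ∨
        (nb M b r T0 C (g0 C) = 0 ∧ nb M b r T0 C (g0 C + 1) = 1 ∧ pp M b r T0 f C = 1)) := by
  -- step 0
  have step0 : ∀ g : (delVV M b r).ConnectedComponent → ZMod 2,
      (∀ C ∈ PC M b r, nb M b r T0 C (g C) ≤ nb M b r T0 C (g C + 1)) →
      M.Adj b r ∧ tau M b r T0 f g = f r ∧
      ¬ (c * (dg M b + β b) ≤ c * (dg M r + β r) ∧ 2 ≤ dg M b + β b) := by
    intro g hg
    by_contra hcon
    apply hbad
    apply lemK M β a z c hac hzc Φ h1 h2 b r hbr hdel hV hord T0 hT0 f hf g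
      (fun C => nb M b r T0 C (g C)) hg 0 (by omega) (by omega) (tau M b r T0 f g) rfl
    · intro C hC e1 e2
      have := nb_pos' M b r T0 hdel hbr hC (g C)
      omega
    · intro t htb htr hbt hrt hT hk _
      left
      exact nb_two M b r T0 rfl hT hk
    · left
      refine ⟨le_rfl, rfl, ?_⟩
      tauto
  have hfav : ∀ C : (delVV M b r).ConnectedComponent, ∃ j : ZMod 2,
      nb M b r T0 C j ≤ nb M b r T0 C (j + 1) := by
    intro C
    rcases le_total (nb M b r T0 C 0) (nb M b r T0 C 1) with h | h
    · exact ⟨0, by rwa [zero_add]⟩
    · refine ⟨1, ?_⟩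
      have : (1 : ZMod 2) + 1 = 0 := by decide
      rwa [this]
  choose g0 hg0 using hfav
  obtain ⟨hadj, htau, hnord⟩ := step0 g0 (fun C _ => hg0 C)
  -- step 2 (i)
  have hβ : β b = 0 := by
    by_contra hβ
    apply hbad
    apply lemK M β a z c hac hzc Φ h1 h2 b r hbr hdel hV hord T0 hT0 f hf g0
      (fun C => nb M b r T0 C (g0 C)) (fun C _ => hg0 C) 1 le_rfl (by omega)
      (tau M b r T0 f g0) rfl
    · intro C hC e1 e2
      have := nb_pos' M b r T0 hdel hbr hC (g0 C)
      omega
    · intro t _ _ _ _ _ _ h
      rw [htau] at h
      exact absurd h (by generalize f r = x; revert x; decide)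
    · right
      exact ⟨le_rfl, htau⟩
  -- step 2 (ii)
  have hsur : ∀ C ∈ PC M b r, nb M b r T0 C (g0 C) = nb M b r T0 C (g0 C + 1) ∨
      (nb M b r T0 C (g0 C) = 0 ∧ nb M b r T0 C (g0 C + 1) = 1 ∧
        pp M b r T0 f C + sz M b r C * (tau M b r T0 f g0 + g0 C) = 1) := by
    intro C1 hC1
    by_contra hcon
    push Not at hcon
    obtain ⟨hne, himp⟩ := hcon
    have hlt : nb M b r T0 C1 (g0 C1) + 1 ≤ nb M b r T0 C1 (g0 C1 + 1) := by
      have := hg0 C1
      omega
    apply hbad
    apply lemK M β a z c hac hzc Φ h1 h2 b r hbr hdel hV hord T0 hT0 f hf g0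
      (fun C => if C = C1 then nb M b r T0 C1 (g0 C1) + 1 else nb M b r T0 C (g0 C)) ?_ 0
      (by omega) (by omega) (tau M b r T0 f g0) rfl
    · intro C hC e1 e2
      by_cases hCC : C = C1
      · subst hCC
        simp only [if_true] at e2
        have h3 : pp M b r T0 f C + sz M b r C * (tau M b r T0 f g0 + g0 C) ≠ 1 :=
          himp e1 (by omega)
        generalize pp M b r T0 f C + sz M b r C * (tau M b r T0 f g0 + g0 C) = x at h3
        revert x; decide
      · simp only [if_neg hCC] at e2
        have := nb_pos' M b r T0 hdel hbr hC (g0 C)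
        omega
    · intro t _ _ _ _ _ _ h
      rw [htau] at h
      exact absurd h (by generalize f r = x; revert x; decide)
    · right
      refine ⟨?_, htau⟩
      rw [← add_sum_erase _ _ hC1, ← add_sum_erase (PC M b r) (fun C =>
        if C = C1 then nb M b r T0 C1 (g0 C1) + 1 else nb M b r T0 C (g0 C)) hC1]
      have : ∑ C ∈ (PC M b r).erase C1,
          (if C = C1 then nb M b r T0 C1 (g0 C1) + 1 else nb M b r T0 C (g0 C)) =
          ∑ C ∈ (PC M b r).erase C1, nb M b r T0 C (g0 C) := by
        apply sum_congr rfl
        intro C hC
        rw [if_neg (ne_of_mem_erase hC)]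
      rw [this]
      simp only [if_true]
      omega
    · intro C hC
      by_cases hCC : C = C1
      · subst hCC; simpa using hlt
      · simp only [if_neg hCC]; exact hg0 C
  -- step 3
  have hodd : ∀ C ∈ PC M b r, ¬ Even (sz M b r C) →
      nb M b r T0 C (g0 C) ≠ nb M b r T0 C (g0 C + 1) := by
    intro C hC hCo heq
    have h3 := (step0 (Function.update g0 C (g0 C + 1)) (by
      intro D _
      by_cases hDC : D = C
      · subst hDC
        rw [Function.update_self, z2_h, heq]
      · rw [Function.update_of_ne hDC]
        exact hg0 D)).2.1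
    rw [tau_upd M b r T0 f g0 C hC hCo, htau] at h3
    exact absurd h3 (by generalize f r = x; revert x; decide)
  -- step 4
  have hall : ∀ C ∈ PC M b r, Even (sz M b r C) := by
    by_contra hcon
    push Not at hcon
    obtain ⟨D, hD, hDo⟩ := hcon
    set O := (PC M b r).filter (fun C => ¬ Even (sz M b r C)) with hO
    have hOmem : ∀ C ∈ O, C ∈ PC M b r ∧ ¬ Even (sz M b r C) ∧
        nb M b r T0 C (g0 C) = 0 ∧ nb M b r T0 C (g0 C + 1) = 1 ∧
        pp M b r T0 f C + sz M b r C * (tau M b r T0 f g0 + g0 C) = 1 := by
      intro C hC
      rw [hO, mem_filter] at hC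
      have e1 := hodd C hC.1 hC.2
      have e2 := hsur C hC.1
      tauto
    have hOe : Even O.card := by
      have e1 : Even (∑ C ∈ PC M b r, sz M b r C) := by
        have := sum_sz M b r hbr
        obtain ⟨m, hm⟩ := hV
        exact ⟨m - 1, by omega⟩
      rw [even_sum_iff_even_card_odd] at e1
      have e2 : O = (PC M b r).filter (fun C => Odd (sz M b r C)) := by
        rw [hO]
        apply filter_congr
        intro C _
        exact Nat.not_even_iff_odd
      rw [e2]
      exact e1
    have hDO : D ∈ O := by rw [hO, mem_filter]; exact ⟨hD, hDo⟩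
    have hO2 : 2 ≤ O.card := by
      have : 0 < O.card := card_pos.mpr ⟨D, hDO⟩
      obtain ⟨m, hm⟩ := hOe
      omega
    obtain ⟨C2, hC2, hC2r⟩ : ∃ C2 ∈ O, (nr M b r T0 C2 0 + nr M b r T0 C2 1 = 0) ∨
        ∀ C ∈ O, 1 ≤ nr M b r T0 C 0 + nr M b r T0 C 1 := by
      by_cases h : ∃ C ∈ O, nr M b r T0 C 0 + nr M b r T0 C 1 = 0
      · obtain ⟨C, hC, e⟩ := h
        exact ⟨C, hC, Or.inl e⟩
      · push Not at h
        exact ⟨D, hDO, Or.inr (fun C hC => Nat.one_le_iff_ne_zero.mpr (h C hC))⟩
    obtain ⟨C1, hC1⟩ : (O.erase C2).Nonempty := by
      rw [← card_pos, card_erase_of_mem hC2]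
      omega
    have hC12 : C1 ≠ C2 := ne_of_mem_erase hC1
    have hC1O : C1 ∈ O := mem_of_mem_erase hC1
    obtain ⟨a1, a2, a3, a4, a5⟩ := hOmem C1 hC1O
    obtain ⟨b1, b2, b3, b4, b5⟩ := hOmem C2 hC2
    have htau2 := tau_upd M b r T0 f g0 C1 a1 a2
    have hg2 : Function.update g0 C1 (g0 C1 + 1) C1 = g0 C1 + 1 := Function.update_self ..
    have hg2' : ∀ C, C ≠ C1 → Function.update g0 C1 (g0 C1 + 1) C = g0 C :=
      fun C hC => Function.update_of_ne hC ..
    apply hbad
    apply lemK M β a z c hac hzc Φ h1 h2 b r hbr hdel hV hord T0 hT0 f hf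
      (Function.update g0 C1 (g0 C1 + 1))
      (fun C => if C = C1 then 0 else if C = C2 then 1 else nb M b r T0 C (g0 C)) ?_ 0
      (by omega) (by omega) (tau M b r T0 f (Function.update g0 C1 (g0 C1 + 1))) rfl
    · -- links
      intro C hC e1 e2
      by_cases hCC1 : C = C1
      · subst hCC1
        rw [hg2] at e1
        omega
      · rw [hg2' C hCC1] at e1 e2 ⊢
        by_cases hCC2 : C = C2
        · subst hCC2
          rw [htau2]
          have : pp M b r T0 f C + (sz M b r C : ZMod 2) * (tau M b r T0 f g0 + 1 + g0 C) =
              (pp M b r T0 f C + (sz M b r C : ZMod 2) * (tau M b r T0 f g0 + g0 C)) +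
                sz M b r C := by ring
          rw [this, b5, odd_cast b2]
          decide
        · simp only [if_neg hCC1, if_neg hCC2] at e2
          have := nb_pos' M b r T0 hdel hbr hC (g0 C)
          omega
    · -- risk
      intro t htb htr hbt hrt hT hk _
      by_cases hCC1 : cm M b r t = C1
      · simp only [hCC1, if_true] at hk
        omega
      · rw [hg2' _ hCC1] at hT
        by_cases hCC2 : cm M b r t = C2
        · have hrn : 1 ≤ nr M b r T0 C2 0 + nr M b r T0 C2 1 := by
            have e1 := nr_tot M b r T0 C2 0
            rw [zero_add] at e1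
            rw [e1]
            apply card_pos.mpr
            exact ⟨t, by simp [hCC2, hrt, htb]⟩
          have hallr : ∀ C ∈ O, 1 ≤ nr M b r T0 C 0 + nr M b r T0 C 1 := by
            rcases hC2r with h | h
            · omega
            · exact h
          by_cases hM : ∃ u, (delVV M b r).Adj t u
          · exact Or.inl hM
          · right
            by_cases hβt : 0 < β t
            · exact Or.inl hβt
            · right
              have hβt0 : β t = 0 := by omega
              have hdt : dg M t ≤ 2 := by
                unfold dg
                have : univ.filter (fun x => M.Adj t x) ⊆ {b, r} := by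
                  intro x hx
                  simp only [mem_filter, mem_univ, true_and] at hx
                  simp only [mem_insert, mem_singleton]
                  by_contra hcon
                  push Not at hcon
                  exact hM ⟨x, (adjVV M b r).mpr ⟨hx, htb, htr, hcon.1, hcon.2⟩⟩
                refine (card_le_card this).trans ?_
                exact card_le_two
              have hdr : 3 ≤ dg M r := by
                have e2 := hallr C1 hC1O
                have e1 := nr_tot M b r T0 C1 0
                rw [zero_add] at e1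
                rw [e1] at e2
                obtain ⟨y, hy⟩ := card_pos.mp e2
                simp only [mem_filter, mem_univ, true_and] at hy
                have hsub : ({b, t, y} : Finset V) ⊆ univ.filter (fun x => M.Adj r x) := by
                  intro x hx
                  simp only [mem_insert, mem_singleton] at hx
                  simp only [mem_filter, mem_univ, true_and]
                  rcases hx with rfl | rfl | rfl
                  · exact hadj.symm
                  · exact hrt
                  · exact hy.2.1
                have hty : t ≠ y := by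
                  rintro rfl
                  exact hC12 (hy.1.symm.trans hCC2)
                have hcard : ({b, t, y} : Finset V).card = 3 := by
                  rw [card_insert_of_notMem, card_insert_of_notMem, card_singleton]
                  · simpa using hty
                  · simp only [mem_insert, mem_singleton, not_or]
                    exact ⟨htb.symm, hy.2.2.symm⟩
                unfold dg
                rw [← hcard]
                exact card_le_card hsub
              have hdb : 2 ≤ dg M b := by
                have hsub : ({r, t} : Finset V) ⊆ univ.filter (fun x => M.Adj b x) := by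
                  intro x hx
                  simp only [mem_insert, mem_singleton] at hx
                  simp only [mem_filter, mem_univ, true_and]
                  rcases hx with rfl | rfl
                  · exact hadj
                  · exact hbt
                unfold dg
                rw [← card_pair htr.symm]
                exact card_le_card hsub
              have hlt : c * (dg M r + β r) < c * (dg M b + β b) := by
                by_contra hcon
                exact hnord ⟨not_lt.mp hcon, by omega⟩
              have hc0 : c ≠ 0 := by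
                rintro rfl
                simp at hlt
              intro heq
              have h5 := mul_left_cancel₀ hc0 heq
              have h6 : dg M t + β t = dg M r + β r := by exact_mod_cast h5
              omega
        · left
          simp only [if_neg hCC1, if_neg hCC2] at hk
          exact nb_two M b r T0 rfl hT hk
    · left
      refine ⟨?_, rfl, Or.inr (Or.inl ?_)⟩
      · rw [← add_sum_erase _ _ a1, ← add_sum_erase (PC M b r) (fun C =>
          if C = C1 then 0 else if C = C2 then 1 else nb M b r T0 C (g0 C)) a1, hg2, a4]
        simp only [if_true]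
        have hC2' : C2 ∈ (PC M b r).erase C1 := mem_erase.mpr ⟨hC12.symm, b1⟩
        rw [← add_sum_erase _ _ hC2', ← add_sum_erase ((PC M b r).erase C1) (fun C =>
          if C = C1 then 0 else if C = C2 then 1 else nb M b r T0 C (g0 C)) hC2',
          hg2' C2 hC12.symm, b3]
        simp only [if_neg hC12.symm, if_true]
        have : ∑ C ∈ ((PC M b r).erase C1).erase C2,
            nb M b r T0 C (Function.update g0 C1 (g0 C1 + 1) C) =
            ∑ C ∈ ((PC M b r).erase C1).erase C2,
            (if C = C1 then 0 else if C = C2 then 1 else nb M b r T0 C (g0 C)) := by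
          apply sum_congr rfl
          intro C hC
          have e1 := ne_of_mem_erase hC
          have e2 := ne_of_mem_erase (mem_of_mem_erase hC)
          rw [hg2' C e2, if_neg e2, if_neg e1]
        rw [this]
        omega
      · rw [htau2, htau]
        generalize f r = x
        revert x; decide
    · intro C hC
      by_cases hCC1 : C = C1
      · subst hCC1; simp
      · rw [hg2' C hCC1]
        by_cases hCC2 : C = C2
        · subst hCC2
          simp only [if_neg hCC1, if_true]
          omega
        · simp only [if_neg hCC1, if_neg hCC2]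
          exact hg0 C
  refine ⟨g0, hadj, htau, hnord, hβ, hall, ?_⟩
  intro C hC
  rcases hsur C hC with h | ⟨h3, h4, h5⟩
  · exact Or.inl h
  · right
    refine ⟨h3, h4, ?_⟩
    rw [even_cast (hall C hC), zero_mul, add_zero] at h5
    exact h5

end E7

end PoolPW
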