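import Pool.Agent.Helper60.PW.E7d
import Pool.Agent.Helper90.PW.Sel
import Pool.Agent.Helper49.PW.E6

/-!
Module E7, part e: the induction step, end.
-/

open Finset

namespace PoolPW

namespace E7

set_option linter.unusedSectionVars false

open Classical

/-- the case of even components: central edge -/
theorem last_case {V : Type*} [Fintype V] (M : SimpleGraph V) (β : V → ℕ) (a z c : ℝ)
    (hac : a ≠ c) (Φ : ℝ → ZMod 2)
    (h1 : ∀ t, Φ (t + (c - a)) = Φ t) (h2 : ∀ t, Φ (t + (z - a)) = Φ t + 1)
    (b r : V) (hbr : M.Adj b r)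
    (hdel : ∀ u v, u ≠ r → v ≠ r → (delV M r).Reachable u v)
    (hV : Even (Fintype.card V))
    (T0 : V → ZMod 2) (hT0 : IsMaxCut (delVV M b r) T0)
    (f : V → ZMod 2) (hf : ∀ v, f v = Φ (a * (dg M v + β v)))
    (g0 : (delVV M b r).ConnectedComponent → ZMod 2) (htau : tau M b r T0 f g0 = f r)
    (hβ : β b = 0) (hall : ∀ C ∈ PC M b r, Even (sz M b r C))
    (hcl : ∀ C ∈ PC M b r, nb M b r T0 C (g0 C) = nb M b r T0 C (g0 C + 1) ∨
        (nb M b r T0 C (g0 C) = 0 ∧ nb M b r T0 C (g0 C + 1) = 1 ∧ pp M b r T0 f C = 1 ∧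
          1 ≤ nr M b r T0 C (g0 C) + nr M b r T0 C (g0 C + 1)))
    (hne : dg M b + β b ≠ dg M r + β r) :
    Good M β a z c := by
  have hbr' : b ≠ r := hbr.ne
  have hfavr : ∀ C : (delVV M b r).ConnectedComponent, ∃ j : ZMod 2,
      nr M b r T0 C j ≤ nr M b r T0 C (j + 1) := by
    intro C
    rcases le_total (nr M b r T0 C 0) (nr M b r T0 C 1) with h | h
    · exact ⟨0, by rwa [zero_add]⟩
    · refine ⟨1, ?_⟩
      have : (1 : ZMod 2) + 1 = 0 := by decide
      rwa [this]
  choose gr hgr using hfavr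
  set Z1 := (PC M b r).filter
    (fun C => nb M b r T0 C (g0 C) ≠ nb M b r T0 C (g0 C + 1)) with hZ1
  have hZ1m : ∀ C, C ∈ Z1 ↔ C ∈ PC M b r ∧
      nb M b r T0 C (g0 C) ≠ nb M b r T0 C (g0 C + 1) := by
    intro C; rw [hZ1, mem_filter]
  have hZ1p : ∀ C ∈ Z1, nb M b r T0 C (g0 C) = 0 ∧ nb M b r T0 C (g0 C + 1) = 1 ∧
      pp M b r T0 f C = 1 ∧ 1 ≤ nr M b r T0 C (g0 C) + nr M b r T0 C (g0 C + 1) := by
    intro C hC
    rw [hZ1m] at hC
    have := hcl C hC.1
    tauto
  -- balanced components are balanced for both orientations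
  have hZ0 : ∀ C ∈ PC M b r, C ∉ Z1 → ∀ j : ZMod 2,
      nb M b r T0 C j = nb M b r T0 C (j + 1) := by
    intro C hC hCZ j
    have e1 : nb M b r T0 C (g0 C) = nb M b r T0 C (g0 C + 1) := by
      by_contra h
      exact hCZ ((hZ1m C).mpr ⟨hC, h⟩)
    have : j = g0 C ∨ j = g0 C + 1 := by
      generalize g0 C = x
      revert x j; decide
    rcases this with rfl | rfl
    · exact e1
    · rw [z2_h]; exact e1.symm
  set Neg := Z1.filter (fun C => nr M b r T0 C (g0 C + 1) < nr M b r T0 C (g0 C)) with hNeg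
  have hNegm : ∀ C, C ∈ Neg ↔ C ∈ Z1 ∧
      nr M b r T0 C (g0 C + 1) < nr M b r T0 C (g0 C) := by
    intro C; rw [hNeg, mem_filter]
  obtain ⟨S, hS, hScard, hSw⟩ := half Neg
    (fun C => (nr M b r T0 C (g0 C) : ℤ) - nr M b r T0 C (g0 C + 1)) (by
      intro C hC
      have := ((hNegm C).mp hC).2
      omega)
  have hSZ : ∀ C ∈ S, C ∈ Z1 := fun C hC => ((hNegm C).mp (hS hC)).1
  have hZPC : ∀ C ∈ Z1, C ∈ PC M b r := fun C hC => ((hZ1m C).mp hC).1
  set g : (delVV M b r).ConnectedComponent → ZMod 2 := fun C =>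
    if C ∈ S then g0 C + 1 else if C ∈ Z1 then g0 C else gr C with hg
  have hgS : ∀ C ∈ S, g C = g0 C + 1 := fun C hC => by simp [hg, hC]
  have hgZ : ∀ C ∈ Z1, C ∉ S → g C = g0 C := fun C hC hCS => by simp [hg, hC, hCS]
  have hg0' : ∀ C, C ∉ Z1 → g C = gr C := by
    intro C hC
    have hCS : C ∉ S := fun h => hC (hSZ C h)
    simp [hg, hC, hCS]
  clear_value g
  set kr : (delVV M b r).ConnectedComponent → ℕ := fun C =>
    if C ∈ Z1 ∧ C ∉ S ∧ nr M b r T0 C (g0 C) = 0 then nr M b r T0 C (g C + 1) - 1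
    else nr M b r T0 C (g C + 1) with hkr
  have hkr1 : ∀ C, C ∈ Z1 → C ∉ S → nr M b r T0 C (g0 C) = 0 →
      kr C = nr M b r T0 C (g C + 1) - 1 := by
    intro C e1 e2 e3; simp only [hkr]; rw [if_pos ⟨e1, e2, e3⟩]
  have hkr2 : ∀ C, ¬ (C ∈ Z1 ∧ C ∉ S ∧ nr M b r T0 C (g0 C) = 0) →
      kr C = nr M b r T0 C (g C + 1) := by
    intro C e1; simp only [hkr]; rw [if_neg e1]
  have hkrle : ∀ C, kr C ≤ nr M b r T0 C (g C + 1) := by
    intro C; simp only [hkr]; split_ifs <;> omega
  clear_value kr
  -- the sum at `b`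
  have hsumb : (∑ C ∈ PC M b r, (nb M b r T0 C (g C + 1) : ℤ)) -
      ∑ C ∈ PC M b r, (nb M b r T0 C (g C) : ℤ) = (Z1 \ S).card - S.card := by
    rw [← sum_sub_distrib]
    have e1 : ∀ C ∈ PC M b r, (nb M b r T0 C (g C + 1) : ℤ) - nb M b r T0 C (g C) =
        (if C ∈ Z1 \ S then 1 else 0) - (if C ∈ S then 1 else 0) := by
      intro C hC
      by_cases hCS : C ∈ S
      · obtain ⟨e2, e3, _⟩ := hZ1p C (hSZ C hCS)
        rw [hgS C hCS, z2_h, e2, e3, if_neg (by simp [hCS]), if_pos hCS]
        norm_num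
      · by_cases hCZ : C ∈ Z1
        · obtain ⟨e2, e3, _⟩ := hZ1p C hCZ
          rw [hgZ C hCZ hCS, e2, e3, if_pos (by simp [hCS, hCZ]), if_neg hCS]
          norm_num
        · rw [← hZ0 C hC hCZ (g C), if_neg (by simp [hCZ]), if_neg hCS]
          norm_num
    rw [sum_congr rfl e1, sum_sub_distrib, sum_ite_mem, sum_ite_mem]
    have e2 : PC M b r ∩ (Z1 \ S) = Z1 \ S := by
      apply inter_eq_right.mpr
      intro C hC
      exact hZPC C (mem_sdiff.mp hC).1
    have e3 : PC M b r ∩ S = S := by
      apply inter_eq_right.mpr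
      intro C hC
      exact hZPC C (hSZ C hC)
    rw [e2, e3]
    simp
  -- the sum at `r`
  have hsumr : (Neg.card % 2 : ℕ) ≤ (∑ C ∈ PC M b r, (kr C : ℤ)) -
      ∑ C ∈ PC M b r, (nr M b r T0 C (g C) : ℤ) := by
    rw [← sum_sub_distrib]
    have e1 : ∀ C ∈ PC M b r,
        ((if C ∈ S then ((nr M b r T0 C (g0 C) : ℤ) - nr M b r T0 C (g0 C + 1)) else 0) -
        (if C ∈ Neg \ S then ((nr M b r T0 C (g0 C) : ℤ) - nr M b r T0 C (g0 C + 1)) else 0)) ≤
        (kr C : ℤ) - nr M b r T0 C (g C) := by
      intro C hC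
      by_cases hCS : C ∈ S
      · rw [if_pos hCS, if_neg (by simp [hCS]), hkr2 C (by tauto), hgS C hCS, z2_h]
        omega
      · rw [if_neg hCS]
        by_cases hCZ : C ∈ Z1
        · obtain ⟨_, _, _, e4⟩ := hZ1p C hCZ
          by_cases hCN : C ∈ Neg
          · rw [if_pos (by simp [hCN, hCS])]
            have e3 := ((hNegm C).mp hCN).2
            rw [hkr2 C (by rintro ⟨_, _, h⟩; omega), hgZ C hCZ hCS]
            omega
          · rw [if_neg (by simp [hCN])]
            have e3 : nr M b r T0 C (g0 C) ≤ nr M b r T0 C (g0 C + 1) := by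
              by_contra h
              exact hCN ((hNegm C).mpr ⟨hCZ, by omega⟩)
            by_cases h0 : nr M b r T0 C (g0 C) = 0
            · rw [hkr1 C hCZ hCS h0, hgZ C hCZ hCS]
              omega
            · rw [hkr2 C (by tauto), hgZ C hCZ hCS]
              omega
        · have hCN : C ∉ Neg := fun h => hCZ ((hNegm C).mp h).1
          rw [if_neg (by simp [hCN]), hkr2 C (by tauto), hg0' C hCZ]
          have := hgr C
          omega
    refine le_trans ?_ (sum_le_sum e1)
    rw [sum_sub_distrib, sum_ite_mem, sum_ite_mem]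
    have e2 : PC M b r ∩ (Neg \ S) = Neg \ S := by
      apply inter_eq_right.mpr
      intro C hC
      exact hZPC C ((hNegm C).mp (mem_sdiff.mp hC).1).1
    have e3 : PC M b r ∩ S = S := by
      apply inter_eq_right.mpr
      intro C hC
      exact hZPC C (hSZ C hC)
    rw [e2, e3]
    linarith
  -- the total parity
  have htot : f b + f r + ∑ C ∈ PC M b r, pp M b r T0 f C = 0 := by
    rw [← htau]
    unfold tau
    have : ∑ C ∈ PC M b r, (pp M b r T0 f C + sz M b r C * g0 C) =
        ∑ C ∈ PC M b r, pp M b r T0 f C := by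
      apply sum_congr rfl
      intro C hC
      rw [even_cast (hall C hC), zero_mul, add_zero]
    rw [this]
    generalize ∑ C ∈ PC M b r, pp M b r T0 f C = x
    generalize f b = y
    revert x y; decide
  apply lemK2 M β a z c hac Φ h1 h2 b r hbr hV T0 hT0 f hf g
    (fun C => nb M b r T0 C (g C + 1)) kr (fun C _ => le_rfl) (fun C _ => hkrle C) hall htot
    ?_ _ _ rfl rfl
  · -- numerical condition
    have hZS : (Z1 \ S).card + S.card = Z1.card := by
      rw [card_sdiff_of_subset hSZ]
      have := card_le_card hSZ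
      omega
    have hNZ : Neg.card ≤ Z1.card := card_filter_le _ _
    rw [← Nat.cast_sum, ← Nat.cast_sum] at hsumb hsumr
    rcases Nat.mod_two_eq_zero_or_one Neg.card with hpar | hpar
    · rw [hpar] at hScard hsumr
      by_cases hZN : Neg.card = Z1.card
      · right
        have e1 : ∑ C ∈ PC M b r, nb M b r T0 C (g C) =
            ∑ C ∈ PC M b r, nb M b r T0 C (g C + 1) := by omega
        by_cases e2 : ∑ C ∈ PC M b r, nr M b r T0 C (g C) + 1 ≤ ∑ C ∈ PC M b r, kr C ∨ 1 ≤ β r
        · left
          exact ⟨e1.le, by omega, e2⟩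
        · right; left
          push Not at e2
          refine ⟨e1.le, by omega, ?_⟩
          intro heq
          apply hne
          have e3 := dg_b M b r T0 hbr g
          have e4 := dg_r M b r T0 hbr g
          have e5 : ∑ C ∈ PC M b r, kr C = ∑ C ∈ PC M b r, nr M b r T0 C (g C + 1) := by
            apply sum_congr rfl
            intro C hC
            apply hkr2
            rintro ⟨f1, _, f3⟩
            have hNeq : Neg = Z1 := eq_of_subset_of_card_le (filter_subset _ _) hZN.ge
            have := ((hNegm C).mp (hNeq ▸ f1)).2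
            omega
          rw [sum_add_distrib] at e3 e4
          omega
      · left
        constructor <;> omega
    · rw [hpar] at hScard hsumr
      right; right; right
      have hSpos : 0 < S.card := by omega
      obtain ⟨C, hC⟩ := card_pos.mp hSpos
      refine ⟨by omega, ?_, by omega⟩
      have e1 : nb M b r T0 C (g C) ≤ ∑ C ∈ PC M b r, nb M b r T0 C (g C) :=
        single_le_sum (f := fun C => nb M b r T0 C (g C)) (fun _ _ => Nat.zero_le _)
          (hZPC C (hSZ C hC))
      rw [hgS C hC, (hZ1p C (hSZ C hC)).2.1] at e1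
      exact e1
  · -- links
    intro C hC e1 _ e3 e4
    by_cases hCS : C ∈ S
    · rw [hgS C hCS, (hZ1p C (hSZ C hCS)).2.1] at e1
      omega
    · by_cases hCZ : C ∈ Z1
      · rw [hgZ C hCZ hCS] at e3 e4
        have := (hZ1p C hCZ).2.2.2
        rw [hkr1 C hCZ hCS e3, hgZ C hCZ hCS] at e4
        omega
      · have e5 := hZ0 C hC hCZ (g C)
        have e6 := nb_pos' M b r T0 hdel hbr' hC (g C)
        omega

end E7

open E7 in
open Classical in
/-- Module E7 (the induction step; from E3, E4, E5, E6). -/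
theorem even_step.{u} {V : Type u} [Fintype V] (M : SimpleGraph V) (hM : M.Connected)
    (β : V → ℕ) (a z c : ℝ) (hac : a < c) (hzc : z < c) (Φ : ℝ → ZMod 2)
    (h1 : ∀ t, Φ (t + (c - a)) = Φ t) (h2 : ∀ t, Φ (t + (z - a)) = Φ t + 1)
    (IH : ∀ (W : Type u) [Fintype W] (N : SimpleGraph W) (β' : W → ℕ),
      Fintype.card W < Fintype.card V → N.Connected → Even (Fintype.card W) →
      (2 < Fintype.card W ∨ ∃ v, 0 < β' v) → Good N β' a z c)
    (hVe : Even (Fintype.card V)) (hV : 2 < Fintype.card V ∨ ∃ v, 0 < β v) :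
    Good M β a z c := by
  have hcard2 : 2 ≤ Fintype.card V := by
    rcases hV with h | ⟨v, _⟩
    · omega
    · have : 0 < Fintype.card V := Fintype.card_pos_iff.mpr ⟨v⟩
      obtain ⟨m, hm⟩ := hVe
      omega
  obtain ⟨b, r, hbr, hdel, hord⟩ := sel M hM hcard2 (fun t => c * (dg M t + β t))
  obtain ⟨T0, hT0⟩ := exists_maxCut (delVV M b r)
  by_contra hbad
  set f : V → ZMod 2 := fun v => Φ (a * (dg M v + β v)) with hf
  obtain ⟨g0, hadj, htau, hnord, hβ, hall, hcl⟩ := all_even M β a z c hac hzc Φ h1 h2 b r hbr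
    hdel hVe hord T0 hT0 f (fun _ => rfl) hbad
  apply hbad
  apply last_case M β a z c hac.ne Φ h1 h2 b r hadj hdel hVe T0 hT0 f (fun _ => rfl) g0 htau
    hβ hall
  · -- no even bridge
    intro C hC
    rcases hcl C hC with h | ⟨e1, e2, e3⟩
    · exact Or.inl h
    · right
      refine ⟨e1, e2, e3, ?_⟩
      by_contra hcon
      have hr0 : ∀ v, cm M b r v = C → M.Adj r v → v = b := by
        intro v hv hrv
        by_contra hvb
        have e4 := nr_tot M b r T0 C (g0 C)
        have : 0 < (univ.filter (fun v => cm M b r v = C ∧ M.Adj r v ∧ v ≠ b)).card :=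
          card_pos.mpr ⟨v, by simp [hv, hrv, hvb]⟩
        omega
      have e4 := nb_tot M b r T0 C (g0 C)
      rw [e1, e2, zero_add] at e4
      obtain ⟨x, hx⟩ := card_eq_one.mp e4.symm
      have hxm : x ∈ univ.filter (fun v => cm M b r v = C ∧ M.Adj b v ∧ v ≠ r) := by
        rw [hx]; exact mem_singleton_self x
      simp only [mem_filter, mem_univ, true_and] at hxm
      apply hbad
      apply bridge_step M hM β a z c hac.ne Φ h1 h2 IH
        (univ.filter (fun v => cm M b r v = C)) x b
      · simp [hxm.1]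
      · simp only [mem_filter, mem_univ, true_and]
        intro h
        rw [← h] at hC
        exact (of_cm_mem M b r hC).1 rfl
      · exact hxm.2.1.symm
      · intro u hu v hv huv
        simp only [mem_filter, mem_univ, true_and] at hu hv
        have hu' := of_cm_mem M b r (v := u) (by rw [hu]; exact hC)
        by_cases hvb : v = b
        · refine ⟨?_, hvb⟩
          have : u ∈ univ.filter (fun v => cm M b r v = C ∧ M.Adj b v ∧ v ≠ r) := by
            simp only [mem_filter, mem_univ, true_and]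
            exact ⟨hu, hvb ▸ huv.symm, hu'.2⟩
          rw [hx, mem_singleton] at this
          exact this
        · exfalso
          by_cases hvr : v = r
          · subst hvr
            exact hu'.1 (hr0 u hu huv.symm)
          · apply hv
            rw [← hu, cm_eq]
            exact ((adjVV M b r).mpr ⟨huv, hu'.1, hu'.2, hvb, hvr⟩).symm.reachable
      · exact hall C hC
      · exact hVe
  · -- the degrees are different
    intro heq
    have hD : dg M b + β b < 2 := by
      by_contra h
      apply hnord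
      refine ⟨?_, by omega⟩
      have : ((dg M b : ℝ) + β b) = (dg M r + β r) := by exact_mod_cast heq
      rw [this]
    have e3 := dg_b M b r T0 hadj g0
    have e4 := dg_r M b r T0 hadj g0
    have hPC : PC M b r = ∅ := by
      by_contra hne
      obtain ⟨C, hC⟩ := nonempty_iff_ne_empty.mpr hne
      have e5 := nb_pos' M b r T0 hdel hbr hC (g0 C)
      have e6 : nb M b r T0 C (g0 C) + nb M b r T0 C (g0 C + 1) ≤
          ∑ C ∈ PC M b r, (nb M b r T0 C (g0 C) + nb M b r T0 C (g0 C + 1)) :=
        single_le_sum (f := fun C => nb M b r T0 C (g0 C) + nb M b r T0 C (g0 C + 1))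
          (fun _ _ => Nat.zero_le _) hC
      omega
    have e5 := sum_sz M b r hbr
    rw [hPC, sum_empty] at e5
    rw [hPC, sum_empty] at e4
    rcases hV with h | ⟨v, hv⟩
    · omega
    · by_cases hvb : v = b
      · subst hvb; omega
      · by_cases hvr : v = r
        · subst hvr; omega
        · have := cm_mem M b r hvb hvr
          rw [hPC] at this
          exact absurd this (notMem_empty _)

end PoolPW
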