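import Pool.Agent.Helper60.PW.E7e
import Pool.Agent.Helper96.PW.E9core

/-!
MP_124889_co: final assembly.
-/

namespace PoolPW

/-- Module E9 (final theorem). -/
theorem main_result.{u} {V : Type u} [Finite V] (G : SimpleGraph V)
    (hG : ∀ u v, G.Adj u v → ∃ x, (G.Adj u x ∧ x ≠ v) ∨ (G.Adj v x ∧ x ≠ u))
    (p q s : ℝ) (hpq : p ≠ q) (hps : p ≠ s) (hqs : q ≠ s) :
    ∃ w : Sym2 V → ℝ, (∀ e ∈ G.edgeSet, w e = p ∨ w e = q ∨ w e = s) ∧
      ∀ u v, G.Adj u v →
        ∑ᶠ x ∈ G.neighborSet u, w s(u, x) ≠ ∑ᶠ x ∈ G.neighborSet v, w s(v, x) :=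
  main_of_step (fun _ _ M hM b a z c hac hzc F h1 h2 IH hVe hV =>
    even_step M hM b a z c hac hzc F h1 h2 IH hVe hV) G hG p q s hpq hps hqs

/-- adjacent vertices of a graph without two-vertex components have a further neighbour -/
theorem nice_nbr {V : Type*} (G : SimpleGraph V)
    (hG : ∀ C : G.ConnectedComponent, C.supp.ncard ≠ 2) (u v : V) (huv : G.Adj u v) :
    ∃ x, (G.Adj u x ∧ x ≠ v) ∨ (G.Adj v x ∧ x ≠ u) := by
  by_contra hcon
  push Not at hcon
  apply hG (G.connectedComponentMk u)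
  have key : ∀ x y, G.Reachable x y → (x = u ∨ x = v) → (y = u ∨ y = v) := by
    rintro x y ⟨p⟩
    induction p with
    | nil => exact id
    | @cons x y z h _ ih =>
      rintro (rfl | rfl)
      · exact ih (Or.inr ((hcon y).1 h))
      · exact ih (Or.inl ((hcon y).2 h))
  have hs : (G.connectedComponentMk u).supp = {u, v} := by
    ext x
    rw [SimpleGraph.ConnectedComponent.mem_supp_iff, SimpleGraph.ConnectedComponent.eq]
    simp only [Set.mem_insert_iff, Set.mem_singleton_iff]
    constructor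
    · intro h
      exact key u x h.symm (Or.inl rfl)
    · rintro (rfl | rfl)
      · exact SimpleGraph.Reachable.refl _
      · exact huv.symm.reachable
  rw [hs]
  exact Set.ncard_pair huv.ne

/-- sum over the incident edges as a sum over the neighbours -/
theorem sum_incidence {V : Type*} [Finite V] (G : SimpleGraph V) (w : Sym2 V → ℝ) (v : V) :
    ∑ᶠ e ∈ G.incidenceSet v, w e = ∑ᶠ x ∈ G.neighborSet v, w s(v, x) := by
  have h : G.incidenceSet v = (fun x => s(v, x)) '' G.neighborSet v := by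
    ext e
    constructor
    · intro he
      obtain ⟨he1, he2⟩ := he
      obtain ⟨x, rfl⟩ := he2
      exact ⟨x, he1, rfl⟩
    · rintro ⟨x, hx, rfl⟩
      exact ⟨hx, Sym2.mem_mk_left v x⟩
  rw [h]
  apply finsum_mem_image
  intro x _ y _ hxy
  have h2 : x = y ∨ v = y ∧ x = v := by simpa using hxy
  rcases h2 with h2 | ⟨h2, h3⟩
  · exact h2
  · exact h3.trans h2

end PoolPW
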